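import Pool.Agent.H70.ES.Core

/-!
# H70.ES.Sc: marks with the prescribed numbers give `Sch L r`
-/

set_option autoImplicit false
set_option linter.unusedSectionVars false

namespace Pool.Agent.H70.ES

open Finset Pool.Agent.H93.EA
open scoped Classical

/-- marks at `c + r` halving prefixes with the pair property and with the prescribed numbers -/
def Marks (k r c : ℕ) : Prop := ∃ C : ℝ, 0 ≤ C ∧ ∀ (α : Type) [Fintype α] (N : ℕ)
  (ρ : ℕ → α → ℕ), ASeq N ρ → 2 * ((k + 1) * r + c) ∣ Fintype.card α → ∃ τ : ℕ → ℕ,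
    (∀ j, τ j ≤ N) ∧ ∃ Z Wp Wm : α → Finset ℕ,
      PProp c r (fun i => pre ρ (τ i) (Fintype.card α / 2)) Z Wp Wm ∧
      (∀ j < r, |((univ.filter fun a => j ∈ Z a).card : ℝ) -
        c * (Fintype.card α : ℝ) / (((k + 1) * r + c : ℕ) : ℝ)| ≤ C) ∧
      (∀ i < c, |(((univ.filter fun a => i ∈ Wp a).card : ℝ) +
        (univ.filter fun a => i ∈ Wm a).card) -
          (1 - r / (((k + 1) * r + c : ℕ) : ℝ)) * (Fintype.card α : ℝ)| ≤ C)

theorem sch_of {k r c : ℕ} (hr : 0 < r) (H : Marks k r c) : Sch ((k + 1) * r + c) r := by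
  obtain ⟨C, hC, H⟩ := H
  refine ⟨(r + 2 * c) * C + 4 * k * r, by positivity, fun α _ N ρ h hn => ?_⟩
  obtain ⟨τ, hτ, Z, Wp, Wm, h1, h2, h3⟩ := H α N ρ h hn
  obtain ⟨t, j, ht, hs⟩ := core h rfl hr ((dvd_mul_right 2 _).trans hn) hτ h1 hC h2 h3
  refine ⟨t, j, ht, ?_⟩
  rcases Nat.eq_zero_or_pos (Fintype.card α) with h0 | h0
  · have : IsEmpty α := Fintype.card_eq_zero_iff.1 h0
    rw [Fintype.sum_empty]
    positivity
  · have e1 : (1 : ℝ) ≤ Fintype.card α := by exact_mod_cast h0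
    have e2 : (0 : ℝ) ≤ 4 * k * r := by positivity
    have e3 : 4 * (k : ℝ) * r * 1 ≤ 4 * k * r * Fintype.card α := mul_le_mul_of_nonneg_left e1 e2
    have e4 : ((r : ℝ) + 2 * c) * C * Fintype.card α + 4 * k * r ≤
        ((r + 2 * c) * C + 4 * k * r) * Fintype.card α := by
      linarith
    linarith

end Pool.Agent.H70.ES
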