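import Pool.Agent.H70.ES.Two

/-!
# H70.ES.Core: marks at `c + r` halving prefixes give few close pairs for `L = (k + 1) r + c` prefixes

`B i = pre ρ (τ i) (n / 2)`, `i < c + r`: the indices `i < c` are the free ones, the index `c + j`,
`j < r`, is the base `j`. Every point `a` has a set `Z a` of marks on bases and two sets `Wp a`, `Wm a`
of marks on windows `i < c`. The number of free indices which separate a pair is at most the number
of bases which do not separate it and are marked for one of the two points, plus the number of bases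
which separate it and are marked for both, plus the number of common windows of different kinds.
-/

set_option autoImplicit false
set_option linter.unusedSectionVars false

namespace Pool.Agent.H70.ES

open Finset Pool.Agent.H93.EA Pool.Agent.H70.EW
open scoped Classical

variable {α : Type} [Fintype α] {N : ℕ} {ρ : ℕ → α → ℕ}

/-- the pair property of the marks -/
def PProp (c r : ℕ) (B : ℕ → Finset α) (Z Wp Wm : α → Finset ℕ) : Prop := ∀ u v : α,
  ((range c).filter fun i => ¬ (u ∈ B i ↔ v ∈ B i)).card ≤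
    ((range r).filter fun j => (u ∈ B (c + j) ↔ v ∈ B (c + j)) ∧ (j ∈ Z u ∨ j ∈ Z v)).card +
    ((range r).filter fun j => ¬ (u ∈ B (c + j) ↔ v ∈ B (c + j)) ∧ j ∈ Z u ∧ j ∈ Z v).card +
    ((range c).filter fun i => i ∈ Wp u ∧ i ∈ Wm v).card +
    ((range c).filter fun i => i ∈ Wm u ∧ i ∈ Wp v).card

theorem ar_base {κ p μ w C : ℝ} (hκ0 : 0 ≤ κ) (hκ1 : κ ≤ 1) (hw0 : 0 ≤ w) (hwp : w ≤ p) (hμ0 : 0 ≤ μ)
    (hμp : μ ≤ p) (h1 : |w - μ| ≤ C) :
    -(κ * (p - w) ^ 2 / 2) + w ^ 2 / 2 ≤ -(κ * (p - μ) ^ 2 / 2) + μ ^ 2 / 2 + C * p := by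
  have hB0 : 0 ≤ κ * (2 * p - w - μ) + (w + μ) := by
    have : 0 ≤ κ * (2 * p - w - μ) := mul_nonneg hκ0 (by linarith)
    linarith
  have hB1 : κ * (2 * p - w - μ) + (w + μ) ≤ 2 * p := by
    have : κ * (2 * p - w - μ) ≤ 1 * (2 * p - w - μ) :=
      mul_le_mul_of_nonneg_right hκ1 (by linarith)
    linarith
  have hC : 0 ≤ C := (abs_nonneg _).trans h1
  have h2 : (w - μ) * (κ * (2 * p - w - μ) + (w + μ)) ≤ C * (κ * (2 * p - w - μ) + (w + μ)) :=
    mul_le_mul_of_nonneg_right ((le_abs_self _).trans h1) hB0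
  have h3 : C * (κ * (2 * p - w - μ) + (w + μ)) ≤ C * (2 * p) := mul_le_mul_of_nonneg_left hB1 hC
  nlinarith

theorem ar_win {p ν q C : ℝ} (hq0 : 0 ≤ q) (hqp : q ≤ 2 * p) (hν0 : 0 ≤ ν) (hνp : ν ≤ 2 * p)
    (h1 : |q - ν| ≤ C) : q ^ 2 / 2 ≤ ν ^ 2 / 2 + 2 * C * p := by
  have hC : 0 ≤ C := (abs_nonneg _).trans h1
  have h2 : (q - ν) * (q + ν) ≤ C * (q + ν) :=
    mul_le_mul_of_nonneg_right ((le_abs_self _).trans h1) (by linarith)
  have h3 : C * (q + ν) ≤ C * (4 * p) := mul_le_mul_of_nonneg_left (by linarith) hC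
  nlinarith

theorem ar_total {k r c p L : ℝ} (hk : 0 ≤ k) (hr : 0 < r) (hc : 0 ≤ c) (hL : L = (k + 1) * r + c) :
    r * (p ^ 2 / 2 - k / (k + 1) * (p - c * p / L) ^ 2 / 2 + (c * p / L) ^ 2 / 2) +
      c * (((1 - r / L) * p) ^ 2 / 2) - c * (p ^ 2 / 2) = r ^ 2 * p ^ 2 / (2 * L) := by
  have hk1 : 0 < k + 1 := by linarith
  have hL0 : 0 < L := by rw [hL]; positivity
  have hc' : c = L - (k + 1) * r := by linarith
  rw [hc']
  field_simp
  ring

theorem win_sum (A A' : Finset α) : ∑ z : α × α, ((if z.1 ∈ A ∧ z.2 ∈ A' then (1 : ℝ) else 0) +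
    (if z.1 ∈ A' ∧ z.2 ∈ A then (1 : ℝ) else 0)) ≤ ((A.card : ℝ) + A'.card) ^ 2 / 2 := by
  rw [sum_add_distrib, sum_boole, sum_boole]
  have e1 : (univ.filter fun z : α × α => z.1 ∈ A ∧ z.2 ∈ A') = A ×ˢ A' := by
    ext z
    simp [mem_product]
  have e2 : (univ.filter fun z : α × α => z.1 ∈ A' ∧ z.2 ∈ A) = A' ×ˢ A := by
    ext z
    simp [mem_product]
  rw [e1, e2, card_product, card_product]
  push_cast
  nlinarith [sq_nonneg ((A.card : ℝ) - A'.card)]

theorem sep_sum (A : Finset α) (hA : 2 * A.card = Fintype.card α) :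
    ∑ z : α × α, (if ¬ (z.1 ∈ A ↔ z.2 ∈ A) then (1 : ℝ) else 0) = (Fintype.card α : ℝ) ^ 2 / 2 := by
  have h1 := opp_card A (univ : Finset α)
  have e1 : (univ.filter fun z : α × α => ¬ (z.1 ∈ A ↔ z.2 ∈ A) ∧ z.1 ∈ (univ : Finset α) ∧
      z.2 ∈ (univ : Finset α)) = univ.filter fun z : α × α => ¬ (z.1 ∈ A ↔ z.2 ∈ A) := by
    ext z
    simp
  rw [e1, inter_univ, inter_univ] at h1
  rw [sum_boole, h1]
  have e3 : (A.card : ℝ) = (Fintype.card α : ℝ) / 2 := by
    have : (2 : ℝ) * A.card = Fintype.card α := by exact_mod_cast hA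
    linarith
  have e4 : (Aᶜ.card : ℝ) = (Fintype.card α : ℝ) / 2 := by
    have h3 := card_add_card_compl A
    have h4 : (A.card : ℝ) + Aᶜ.card = Fintype.card α := by exact_mod_cast h3
    linarith
  push_cast
  rw [e3, e4]
  ring

/-- the sum bound -/
theorem core (h : ASeq N ρ) {k r c L : ℕ} (hL : L = (k + 1) * r + c) (hr : 0 < r)
    (hn : 2 ∣ Fintype.card α) {τ : ℕ → ℕ} (hτ : ∀ j, τ j ≤ N) {Z Wp Wm : α → Finset ℕ}
    (hP : PProp c r (fun i => pre ρ (τ i) (Fintype.card α / 2)) Z Wp Wm) {C : ℝ} (hC : 0 ≤ C)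
    (hM : ∀ j < r, |((univ.filter fun a => j ∈ Z a).card : ℝ) -
      c * (Fintype.card α : ℝ) / L| ≤ C)
    (hW : ∀ i < c, |(((univ.filter fun a => i ∈ Wp a).card : ℝ) +
      (univ.filter fun a => i ∈ Wm a).card) - (1 - r / L) * (Fintype.card α : ℝ)| ≤ C) :
    ∃ t j : Fin L → ℕ, (∀ i, t i ≤ N) ∧
      ∑ z : α × α, ((r - Pool.Agent.H93.EA.dist ρ t j z.1 z.2 : ℕ) : ℝ) ≤
        (r : ℝ) ^ 2 * (Fintype.card α : ℝ) ^ 2 / (2 * L) +
          ((r + 2 * c) * C * Fintype.card α + 4 * k * r) := by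
  set n := Fintype.card α with hnd
  set B : ℕ → Finset α := fun i => pre ρ (τ i) (n / 2) with hB
  have hm : n / 2 ≤ Fintype.card α := Nat.div_le_self _ _
  have hBc : ∀ i, 2 * (B i).card = Fintype.card α := by
    intro i
    rw [hB]
    simp only
    rw [card_pre h (hτ i) hm]
    omega
  set W : ℕ → Finset α := fun j => univ.filter fun a => j ∈ Z a with hWd
  choose l hl1 hl2 hl3 hl4 using fun j : ℕ => bsp (cut := Cut N ρ) (S₀ := B (c + j))
    (two h (hτ (c + j)) hm) k (B (c + j) \ W j) sdiff_subset ((B (c + j))ᶜ \ W j) sdiff_subset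
  set l0 : List (Finset α) := (List.range (c + r)).map B ++ (List.range r).flatMap l with hl0
  have hlen : l0.length = L := by
    rw [hl0, List.length_append, List.length_map, List.length_range,
      len_flatMap_range l k r fun j _ => hl1 j, hL]
    ring
  have hcut : ∀ C ∈ l0, Cut N ρ C := by
    intro C hC
    rw [hl0, List.mem_append, List.mem_map, List.mem_flatMap] at hC
    rcases hC with ⟨i, _, rfl⟩ | ⟨j, _, hj⟩
    · exact cut_pre (hτ i) _
    · exact hl2 j C hj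
  obtain ⟨t, jj, ht, hd⟩ := list_dist hlen hcut
  refine ⟨t, jj, ht, ?_⟩
  -- the pointwise bound
  let w : ℕ → α × α → ℝ := fun i z =>
    (if z.1 ∈ (univ.filter fun a => i ∈ Wp a) ∧ z.2 ∈ (univ.filter fun a => i ∈ Wm a) then
      (1 : ℝ) else 0) +
    (if z.1 ∈ (univ.filter fun a => i ∈ Wm a) ∧ z.2 ∈ (univ.filter fun a => i ∈ Wp a) then
      (1 : ℝ) else 0)
  let s : ℕ → α × α → ℝ := fun i z => if ¬ (z.1 ∈ B i ↔ z.2 ∈ B i) then (1 : ℝ) else 0
  have hpt : ∀ z : α × α, ((r - Pool.Agent.H93.EA.dist ρ t jj z.1 z.2 : ℕ) : ℝ) ≤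
      ∑ j ∈ range r, tj (B (c + j)) (W j) (l j) z - ∑ i ∈ range c, s i z +
        ∑ i ∈ range c, w i z := by
    intro z
    have h1 : ls l0 z = (∑ i ∈ range c, s i z + ∑ j ∈ range r, s (c + j) z) +
        ∑ j ∈ range r, ls (l j) z := by
      rw [hl0, ls_append, ls_map_range, ls_flatMap_range, sum_range_add]
    have h2 : (r : ℝ) ≤ ∑ j ∈ range r, s (c + j) z + ∑ j ∈ range r, ls (l j) z +
        ∑ j ∈ range r, tj (B (c + j)) (W j) (l j) z := by
      rw [← sum_add_distrib, ← sum_add_distrib]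
      calc (r : ℝ) = ∑ _j ∈ range r, (1 : ℝ) := by simp
        _ ≤ _ := sum_le_sum fun j _ => tj_ge (B (c + j)) (W j) (l j) z
    have h3 : ∑ i ∈ range c, s i z ≤
        ∑ j ∈ range r, tj (B (c + j)) (W j) (l j) z + ∑ i ∈ range c, w i z := by
      have h4 := hP z.1 z.2
      have h5 : (((range c).filter fun i => ¬ (z.1 ∈ B i ↔ z.2 ∈ B i)).card : ℝ) ≤
          (((range r).filter fun j => (z.1 ∈ B (c + j) ↔ z.2 ∈ B (c + j)) ∧
            (j ∈ Z z.1 ∨ j ∈ Z z.2)).card : ℝ) +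
          ((range r).filter fun j => ¬ (z.1 ∈ B (c + j) ↔ z.2 ∈ B (c + j)) ∧ j ∈ Z z.1 ∧
            j ∈ Z z.2).card +
          ((range c).filter fun i => i ∈ Wp z.1 ∧ i ∈ Wm z.2).card +
          ((range c).filter fun i => i ∈ Wm z.1 ∧ i ∈ Wp z.2).card := by
        exact_mod_cast h4
      rw [← sum_boole, ← sum_boole, ← sum_boole, ← sum_boole, ← sum_boole, ← sum_add_distrib,
        add_assoc, ← sum_add_distrib] at h5
      refine h5.trans (add_le_add (sum_le_sum fun j _ => ?_) (le_of_eq (sum_congr rfl fun i _ => ?_)))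
      · unfold tj
        have e1 : (0 : ℝ) ≤ (if z ∈ un (l j) (B (c + j) \ W j) then 1 else 0) := by positivity
        have e2 : (0 : ℝ) ≤ (if z ∈ un (l j) ((B (c + j))ᶜ \ W j) then 1 else 0) := by positivity
        have e3 : ∀ a : α, a ∈ W j ↔ j ∈ Z a := by
          intro a
          rw [hWd]
          simp
        simp only [e3]
        linarith
      · simp only [w, mem_filter, mem_univ, true_and]
    have h6 : (Pool.Agent.H93.EA.dist ρ t jj z.1 z.2 : ℝ) = ls l0 z := hd z.1 z.2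
    have h7 : 0 ≤ ∑ i ∈ range c, w i z := sum_nonneg fun i _ => by
      simp only [w]
      positivity
    rcases le_total r (Pool.Agent.H93.EA.dist ρ t jj z.1 z.2) with h8 | h8
    · rw [Nat.sub_eq_zero_of_le h8, Nat.cast_zero]
      linarith
    · rw [Nat.cast_sub h8, h6, h1]
      linarith
  have hn0 : (0 : ℝ) ≤ n := Nat.cast_nonneg n
  have hk0 : (0 : ℝ) ≤ k := Nat.cast_nonneg k
  have hr0 : (0 : ℝ) < r := by exact_mod_cast hr
  have hc0 : (0 : ℝ) ≤ c := Nat.cast_nonneg c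
  have hLr : (L : ℝ) = ((k : ℝ) + 1) * r + c := by rw [hL]; push_cast; ring
  have hL0 : (0 : ℝ) < L := by rw [hLr]; positivity
  have hcL : (c : ℝ) * n / L ≤ n := by
    rw [div_le_iff₀ hL0, hLr]
    nlinarith [mul_nonneg (mul_nonneg (by linarith : (0 : ℝ) ≤ (k : ℝ) + 1) hr0.le) hn0]
  have hcL0 : 0 ≤ (c : ℝ) * n / L := by positivity
  have hrL : (r : ℝ) / L ≤ 1 := by
    rw [div_le_one hL0, hLr]
    nlinarith
  have hrL0 : 0 ≤ (r : ℝ) / L := by positivity
  -- bases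
  have hb : ∀ j ∈ range r, ∑ z : α × α, tj (B (c + j)) (W j) (l j) z ≤
      ((n : ℝ) ^ 2 / 2 - k / (k + 1) * ((n : ℝ) - c * n / L) ^ 2 / 2 + (c * (n : ℝ) / L) ^ 2 / 2) +
        (C * n + 4 * k) := by
    intro j hj
    have h1 := tj_sum (hBc (c + j)) (hl3 j) (hl4 j)
    have h2 : ((W j).card : ℝ) ≤ n := by
      rw [hnd]
      exact_mod_cast card_le_univ _
    have h3 := ar_base (κ := (k : ℝ) / (k + 1)) (p := n) (μ := c * n / L) (w := (W j).card) (C := C)
      (by positivity) (by rw [div_le_one (by positivity)]; linarith) (Nat.cast_nonneg _) h2 hcL0 hcL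
      (hM j (mem_range.1 hj))
    rw [← hnd] at h1
    have e1 : ∀ x : ℝ, (k : ℝ) / (k + 1) * x ^ 2 / 2 = k / (k + 1) * x ^ 2 / 2 := fun x => rfl
    linarith
  -- windows
  have hw : ∀ i ∈ range c, ∑ z : α × α, w i z ≤ ((1 - r / L) * (n : ℝ)) ^ 2 / 2 + 2 * C * n := by
    intro i hi
    have h1 := win_sum (univ.filter fun a : α => i ∈ Wp a) (univ.filter fun a : α => i ∈ Wm a)
    have h2 : ((univ.filter fun a : α => i ∈ Wp a).card : ℝ) ≤ n := by
      rw [hnd]
      exact_mod_cast card_le_univ _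
    have h3 : ((univ.filter fun a : α => i ∈ Wm a).card : ℝ) ≤ n := by
      rw [hnd]
      exact_mod_cast card_le_univ _
    refine h1.trans (ar_win (by positivity) (by linarith) ?_ ?_ (hW i (mem_range.1 hi)))
    · exact mul_nonneg (by linarith) hn0
    · have : (1 - (r : ℝ) / L) * n ≤ 1 * n := mul_le_mul_of_nonneg_right (by linarith) hn0
      linarith
  have hs : ∀ i ∈ range c, ∑ z : α × α, s i z = (n : ℝ) ^ 2 / 2 := by
    intro i _
    exact sep_sum (B i) (hBc i)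
  calc ∑ z : α × α, ((r - Pool.Agent.H93.EA.dist ρ t jj z.1 z.2 : ℕ) : ℝ)
      ≤ ∑ z : α × α, (∑ j ∈ range r, tj (B (c + j)) (W j) (l j) z - ∑ i ∈ range c, s i z +
        ∑ i ∈ range c, w i z) := sum_le_sum fun z _ => hpt z
    _ = ∑ j ∈ range r, ∑ z : α × α, tj (B (c + j)) (W j) (l j) z -
        ∑ i ∈ range c, ∑ z : α × α, s i z + ∑ i ∈ range c, ∑ z : α × α, w i z := by
          rw [sum_add_distrib, sum_sub_distrib, sum_comm, sum_comm (s := univ) (t := range c),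
            sum_comm (s := univ) (t := range c)]
    _ ≤ ∑ _j ∈ range r, (((n : ℝ) ^ 2 / 2 - k / (k + 1) * ((n : ℝ) - c * n / L) ^ 2 / 2 +
          (c * (n : ℝ) / L) ^ 2 / 2) + (C * n + 4 * k)) - ∑ _i ∈ range c, (n : ℝ) ^ 2 / 2 +
        ∑ _i ∈ range c, (((1 - r / L) * (n : ℝ)) ^ 2 / 2 + 2 * C * n) := by
          rw [sum_congr rfl hs]
          have h1 := sum_le_sum hb
          have h2 := sum_le_sum hw
          linarith
    _ = (r : ℝ) ^ 2 * (n : ℝ) ^ 2 / (2 * L) + ((r + 2 * c) * C * n + 4 * k * r) := by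
          rw [sum_const, sum_const, sum_const, card_range, card_range, nsmul_eq_mul, nsmul_eq_mul,
            nsmul_eq_mul, ← ar_total hk0 hr0 hc0 hLr]
          ring

end Pool.Agent.H70.ES
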