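import Pool.Agent.H93.EA.Asm
import Pool.Agent.H93.EA.Rot
import Pool.Agent.H70.EW.Cn2

/-!
# H70.ES.Two: prefixes of an allowable sequence as cuts, lists of cuts
-/

set_option autoImplicit false
set_option linter.unusedSectionVars false

namespace Pool.Agent.H70.ES

open Finset Pool.Agent.H93.EA Pool.Agent.H70.EW
open scoped Classical

variable {α : Type} [Fintype α] {N : ℕ} {ρ : ℕ → α → ℕ}

/-- a prefix or the complement of a prefix -/
def Cut (N : ℕ) (ρ : ℕ → α → ℕ) (C : Finset α) : Prop :=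
  ∃ t ≤ N, ∃ j, C = pre ρ t j ∨ C = (pre ρ t j)ᶜ

theorem cut_pre {t : ℕ} (ht : t ≤ N) (j : ℕ) : Cut N ρ (pre ρ t j) := ⟨t, ht, j, Or.inl rfl⟩

theorem cut_ext (h : ASeq N ρ) {s t j : ℕ} (hs : s ≤ N) (ht : t ≤ N) (hj : j ≤ Fintype.card α) :
    Cut N ρ (pre (fun t a => Pool.Agent.H93.EA.ext N ρ (s + t) a) t j) := by
  rcases le_or_gt (s + t) N with h1 | h1
  · refine ⟨s + t, h1, j, Or.inl ?_⟩
    ext a
    rw [mem_pre, mem_pre, ext_le h1]
  · refine ⟨s + t - N, by omega, Fintype.card α - j, Or.inr ?_⟩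
    ext a
    rw [mem_compl, mem_pre, mem_pre, ext_gt h1]
    have := h.lt_card (s + t - N) (by omega) a
    omega

theorem two (h : ASeq N ρ) {s m : ℕ} (hs : s ≤ N) (hm : m ≤ Fintype.card α) :
    ∀ R ⊆ pre ρ s m, ∀ R' ⊆ (pre ρ s m)ᶜ, ∀ a ≤ R.card, ∀ b ≤ R'.card, ∃ C, Cut N ρ C ∧
      (C ∩ R).card = a ∧ (C ∩ R').card = b := by
  intro R hR R' hR' a ha b hb
  have e0 : pre (fun t a => Pool.Agent.H93.EA.ext N ρ (s + t) a) 0 m = pre ρ s m := by
    ext x
    rw [mem_pre, mem_pre, add_zero, ext_le hs]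
  obtain ⟨t, ht, j, hj, h1, h2⟩ := lemA (rot h hs) (X := R) (Y := R') (m := m) hm
    (by rw [e0]; exact hR) (by
      rw [e0, disjoint_left]
      intro x hx
      exact mem_compl.1 (hR' hx)) ha hb
  refine ⟨pre (fun t a => Pool.Agent.H93.EA.ext N ρ (s + t) a) t j, cut_ext h hs ht hj, ?_, ?_⟩
  · rw [inter_comm]
    exact h1
  · rw [inter_comm]
    exact h2

theorem ls_append (l l' : List (Finset α)) (z : α × α) : ls (l ++ l') z = ls l z + ls l' z := by
  unfold ls
  rw [List.map_append, List.sum_append]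

theorem ls_map_range (B : ℕ → Finset α) (n : ℕ) (z : α × α) :
    ls ((List.range n).map B) z =
      ∑ j ∈ range n, if ¬ (z.1 ∈ B j ↔ z.2 ∈ B j) then (1 : ℝ) else 0 := by
  induction n with
  | zero =>
    unfold ls
    simp
  | succ n ih =>
    rw [List.range_succ, List.map_append, ls_append, ih, sum_range_succ]
    congr 1
    unfold ls
    simp

theorem ls_flatMap_range (l : ℕ → List (Finset α)) (n : ℕ) (z : α × α) :
    ls ((List.range n).flatMap l) z = ∑ j ∈ range n, ls (l j) z := by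
  induction n with
  | zero =>
    unfold ls
    simp
  | succ n ih =>
    rw [List.range_succ, List.flatMap_append, ls_append, ih, sum_range_succ]
    congr 1
    simp

theorem len_flatMap_range (l : ℕ → List (Finset α)) (k n : ℕ) (hl : ∀ j < n, (l j).length = k) :
    ((List.range n).flatMap l).length = n * k := by
  induction n with
  | zero => simp
  | succ n ih =>
    rw [List.range_succ, List.flatMap_append, List.length_append, ih fun j hj => hl j (by omega)]
    simp [hl n (by omega), Nat.succ_mul]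

/-- a list of cuts as a family of prefixes -/
theorem list_dist {L : ℕ} {l : List (Finset α)} (hl : l.length = L) (hc : ∀ C ∈ l, Cut N ρ C) :
    ∃ t j : Fin L → ℕ, (∀ i, t i ≤ N) ∧ ∀ a b, (Pool.Agent.H93.EA.dist ρ t j a b : ℝ) = ls l (a, b) := by
  subst hl
  have h1 : ∀ i : Fin l.length, Cut N ρ (l.get i) := fun i => hc _ (List.get_mem l i)
  choose t ht j hj using h1
  refine ⟨t, j, ht, fun a b => ?_⟩
  have e1 : ls l (a, b) = ∑ i : Fin l.length,
      if ¬ (a ∈ l.get i ↔ b ∈ l.get i) then (1 : ℝ) else 0 := by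
    unfold ls
    conv_lhs => rw [← List.ofFn_get l]
    rw [List.map_ofFn, List.sum_ofFn]
    rfl
  rw [e1]
  unfold Pool.Agent.H93.EA.dist
  rw [← sum_boole]
  refine sum_congr rfl fun i _ => ?_
  have e2 : (¬ (ρ (t i) a < j i ↔ ρ (t i) b < j i)) ↔ ¬ (a ∈ l.get i ↔ b ∈ l.get i) := by
    rcases hj i with h2 | h2
    · rw [h2, mem_pre, mem_pre]
    · rw [h2, mem_compl, mem_compl, mem_pre, mem_pre]
      tauto
  simp only [e2]

end Pool.Agent.H70.ES
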